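import Pool.Agent.Helper51.Hart.Final

/-!
# Uniform approximation on Hartogs domains in `ℂ²` whose closure has a Stein neighbourhood basis

Let `Ω ⊂ ℂ²` be a bounded domain with `C^∞` boundary which is invariant under all rotations
`(z, w) ↦ (c z, w)`, `|c| = 1`, of the first variable, and suppose that the closure of `Ω` has a
Stein neighbourhood basis. Then every function which is smooth up to the boundary and holomorphic
in `Ω` is a uniform limit, on the closure of `Ω`, of functions holomorphic near the closure.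

There is no other assumption: the fibres may be disconnected (worm type domains), the weakly
pseudoconvex part of the boundary is arbitrary, and pseudoconvexity of `Ω` is not assumed
separately (it follows from the existence of the Stein basis).
-/

set_option autoImplicit false

namespace Pool.Agent.Results.MP_7ef401_an.HartogsDomains

/-- Q1 holds for all Hartogs domains in `ℂ²`: the hypotheses and the conclusion are those of the
problem for `n = 2`, with the invariance under rotations of the first variable in place of the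
holomorphic convexity of `Ω`. -/
theorem result :
    ∀ (Ω : Set (Fin 2 → ℂ)),
      IsOpen Ω → IsConnected Ω → Bornology.IsBounded Ω →
      (∃ ρ : (Fin 2 → ℂ) → ℝ, ContDiff ℝ ((⊤ : ℕ∞) : WithTop ℕ∞) ρ ∧
          Ω = {z | ρ z < 0} ∧ ∀ z, ρ z = 0 → fderiv ℝ ρ z ≠ 0) →
      (∀ z ∈ Ω, ∀ c : ℂ, ‖c‖ = 1 → ![c * z 0, z 1] ∈ Ω) →
      (∀ U : Set (Fin 2 → ℂ), IsOpen U → closure Ω ⊆ U →
          ∃ V : Set (Fin 2 → ℂ), IsOpen V ∧ closure Ω ⊆ V ∧ V ⊆ U ∧
            ∀ K ⊆ V, IsCompact K →
              IsCompact {z ∈ V | ∀ f : (Fin 2 → ℂ) → ℂ, DifferentiableOn ℂ f V →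
                ∀ M : ℝ, (∀ w ∈ K, ‖f w‖ ≤ M) → ‖f z‖ ≤ M}) →
      ∀ g : (Fin 2 → ℂ) → ℂ, ContDiff ℝ ((⊤ : ℕ∞) : WithTop ℕ∞) g →
        DifferentiableOn ℂ g Ω →
        ∀ ε : ℝ, 0 < ε →
          ∃ U : Set (Fin 2 → ℂ), IsOpen U ∧ closure Ω ⊆ U ∧
            ∃ h : (Fin 2 → ℂ) → ℂ, DifferentiableOn ℂ h U ∧
              ∀ z ∈ closure Ω, ‖g z - h z‖ < ε :=
  Pool.Helper51.Hart.result

end Pool.Agent.Results.MP_7ef401_an.HartogsDomains
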